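import Mathlib
import Pool.Agent.H236Z.RAlt.Defs
import Pool.Agent.H236Z.RAlt.Main

set_option autoImplicit false

namespace Pool.Agent.Results.MP_c44da7_al.AQ1Nuclei

open Pool.Agent.H236Z.RAlt

universe u

/-- Q1, both parts, in the negative: a nonassociative integer polynomial all of whose values lie in
the right nucleus (part a), or all of whose values lie in the left nucleus (part b), in every right
alternative ring is an identity of all right alternative rings. -/
theorem result :
    (∀ f : Poly,
      (∀ (A : Type u) [NonUnitalNonAssocRing A], IsRAlt A → ∀ a : ℕ → A, ev a f ∈ Nr A) →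
      ∀ (A : Type u) [NonUnitalNonAssocRing A], IsRAlt A → ∀ a : ℕ → A, ev a f = 0) ∧
    (∀ f : Poly,
      (∀ (A : Type u) [NonUnitalNonAssocRing A], IsRAlt A → ∀ a : ℕ → A, ev a f ∈ Nl A) →
      ∀ (A : Type u) [NonUnitalNonAssocRing A], IsRAlt A → ∀ a : ℕ → A, ev a f = 0) :=
  ⟨fun f h A _ hA a => main_r f h A hA a, fun f h A _ hA a => main_l f h A hA a⟩

end Pool.Agent.Results.MP_c44da7_al.AQ1Nuclei
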