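import Mathlib
import Pool.Agent.H236Z.RAlt.Defs
import Pool.Agent.H236Z.RAlt.Main

set_option autoImplicit false

namespace Pool.Agent.Results.MP_c44da7_al.BQ2AltCenter

open Pool.Agent.H236Z.RAlt

universe u

/-- Q2 in the negative: a nonassociative integer polynomial all of whose values lie in the
alternative center in every right alternative ring is an identity of all right alternative
rings. -/
theorem result (f : Poly)
    (h : ∀ (A : Type u) [NonUnitalNonAssocRing A], IsRAlt A → ∀ a : ℕ → A, ev a f ∈ Nalt A) :
    ∀ (A : Type u) [NonUnitalNonAssocRing A], IsRAlt A → ∀ a : ℕ → A, ev a f = 0 :=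
  fun A _ hA a => main_alt f h A hA a

end Pool.Agent.Results.MP_c44da7_al.BQ2AltCenter
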